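import Pool.Agent.Y276.SS.Main

/-!
# MP_9a6711_an, Q1: smooth surjections without surjective separable restrictions, definitive form

For `1 ≤ p < ∞`, `Γ` uncountable and `F` a separable Banach space there is a `C^∞` surjection
`ℓ^p(Γ) → F` without surjective restriction to a separable subspace if and only if `dim F ≥ 2`.
If `dim F ≥ 2`, it can be chosen with derivatives of rank at most one, mapping the closed unit
ball onto `F`, and such that the image of every separable subspace has empty interior. The domain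
may be any Banach space with an uncountable bounded biorthogonal system whose coefficient
functionals are `p`-summable at every point.
-/

set_option autoImplicit false

open Set
open scoped ENNReal ContDiff

namespace Pool.Agent.Results.MP_9a6711_an.DimensionCriterion

universe u v w

/-- The space `ℓ^p(Γ)` of real functions on `Γ`. -/
abbrev LP (p : ℝ≥0∞) (Γ : Type u) := lp (fun _ : Γ => ℝ) p

/-- The map `g : E → F` between real normed spaces is `C^∞`, surjective, and its restriction to
any (norm) separable linear subspace `Y` of `E` is not surjective. -/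
def SmoothOntoNotOnSeparable {E : Type u} {F : Type v} [NormedAddCommGroup E] [NormedSpace ℝ E]
    [NormedAddCommGroup F] [NormedSpace ℝ F] (g : E → F) : Prop :=
  ContDiff ℝ ∞ g ∧ Function.Surjective g ∧
    ∀ Y : Submodule ℝ E, TopologicalSpace.SeparableSpace Y →
      ¬ Function.Surjective (fun y : Y => g (y : E))

/-- Every first derivative of `g` has rank at most one. -/
def RankLeOne {E : Type u} {F : Type v} [NormedAddCommGroup E] [NormedSpace ℝ E]
    [NormedAddCommGroup F] [NormedSpace ℝ F] (g : E → F) : Prop :=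
  ∀ x : E, ∃ w : F, ∀ h : E, ∃ c : ℝ, fderiv ℝ g x h = c • w

/-- The images of all separable linear subspaces have empty interior. -/
def ThinOnSeparable {E : Type u} {F : Type v} [NormedAddCommGroup E] [NormedSpace ℝ E]
    [TopologicalSpace F] (g : E → F) : Prop :=
  ∀ Y : Submodule ℝ E, TopologicalSpace.SeparableSpace Y → interior (g '' Y) = ∅

/-- The images of the closures of all sets of cardinality less than the continuum have empty
interior. -/
def ThinBelowContinuum {E : Type u} {F : Type v} [TopologicalSpace E] [TopologicalSpace F]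
    (g : E → F) : Prop :=
  ∀ D : Set E, Cardinal.mk D < Cardinal.continuum → interior (g '' closure D) = ∅

/-- The strong form of the conclusion. -/
def Strong {E : Type w} {F : Type v} [NormedAddCommGroup E] [NormedSpace ℝ E]
    [NormedAddCommGroup F] [NormedSpace ℝ F] (Γ : Type u) (C : ℝ) (g : E → F) : Prop :=
  ContDiff ℝ ∞ g ∧ RankLeOne g ∧ g '' Metric.closedBall 0 C = univ ∧ ThinOnSeparable g ∧
    (Cardinal.continuum ≤ Cardinal.mk Γ → ThinBelowContinuum g)

/-- Strong maps exist onto every separable Banach space of dimension at least two. -/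
def StrongOntoAll (Γ : Type u) (C : ℝ) (E : Type w) [NormedAddCommGroup E] [NormedSpace ℝ E] :
    Prop :=
  ∀ (F : Type v) [NormedAddCommGroup F] [NormedSpace ℝ F] [CompleteSpace F]
    [TopologicalSpace.SeparableSpace F], 1 < Module.rank ℝ F → ∃ g : E → F, Strong Γ C g

/-- The criterion: for separable Banach spaces `F` there is a smooth surjection `E → F` without
surjective separable restriction if and only if `dim F ≥ 2`. -/
def Criterion (E : Type w) [NormedAddCommGroup E] [NormedSpace ℝ E] : Prop :=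
  ∀ (F : Type v) [NormedAddCommGroup F] [NormedSpace ℝ F] [CompleteSpace F]
    [TopologicalSpace.SeparableSpace F],
    (∃ g : E → F, SmoothOntoNotOnSeparable g) ↔ 1 < Module.rank ℝ F

/-- A biorthogonal system `(v γ, f γ)` with `‖v γ‖ ≤ C` and `(f γ x)_γ ∈ ℓ^p(Γ)` for all `x`. -/
def IsSystem {Γ : Type u} {E : Type w} [NormedAddCommGroup E] [NormedSpace ℝ E] (p : ℝ≥0∞)
    (C : ℝ) (v : Γ → E) (f : Γ → StrongDual ℝ E) : Prop :=
  (∀ γ, ‖v γ‖ ≤ C) ∧ (∀ γ, f γ (v γ) = 1) ∧ (∀ γ β, γ ≠ β → f γ (v β) = 0) ∧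
    ∀ x, Memℓp (fun γ => f γ x) p

/-- Every continuous surjection onto a space of dimension at most one is already onto from a
separable subspace. -/
def LowDimensional (E : Type w) [NormedAddCommGroup E] [NormedSpace ℝ E] : Prop :=
  ∀ (F : Type v) [NormedAddCommGroup F] [NormedSpace ℝ F], Module.rank ℝ F ≤ 1 →
    ∀ g : E → F, Continuous g → Function.Surjective g →
      ∃ Y : Submodule ℝ E, TopologicalSpace.SeparableSpace Y ∧
        Function.Surjective (fun y : Y => g (y : E))

/-- A separable subspace lies in the closure of a countable subset of itself. -/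
lemma exists_countable_closure {E : Type w} [NormedAddCommGroup E] [NormedSpace ℝ E]
    (Y : Submodule ℝ E) (hY : TopologicalSpace.SeparableSpace Y) :
    ∃ D : Set E, D.Countable ∧ (Y : Set E) ⊆ closure D := by
  obtain ⟨c, hcc, hcd⟩ := TopologicalSpace.exists_countable_dense Y
  refine ⟨Subtype.val '' c, hcc.image _, fun y hy => ?_⟩
  have h1 : (⟨y, hy⟩ : Y) ∈ closure c := hcd _
  exact image_closure_subset_closure_image continuous_subtype_val ⟨_, h1, rfl⟩

/-- General domains. -/
lemma general_case (p : ℝ≥0∞) [Fact (1 ≤ p)] (hp : p ≠ ⊤) (Γ : Type u) [Uncountable Γ]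
    (E : Type w) [NormedAddCommGroup E] [NormedSpace ℝ E] [CompleteSpace E]
    (C : ℝ) (v : Γ → E) (f : Γ → StrongDual ℝ E) (h : IsSystem p C v f) :
    StrongOntoAll.{u, v, w} Γ C E := by
  intro F _ _ _ _ hF
  obtain ⟨hC, h1, h0, hf⟩ := h
  have hsc : SecondCountableTopology F := UniformSpace.secondCountable_of_separable F
  obtain ⟨g, g1, g2, g3, g4, g5⟩ := Pool.Agent.Y276.SS.general p hp v f hC h1 h0 hf (F := F) hF
  refine ⟨g, g1, g2, g3, fun Y hY => ?_, g5⟩
  obtain ⟨D, hD, hYD⟩ := exists_countable_closure Y hY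
  exact subset_eq_empty (interior_mono (image_mono hYD)) (g4 D hD)

/-- The unit vectors and the coordinate functionals of `ℓ^p(Γ)`. -/
lemma lp_system (p : ℝ≥0∞) [Fact (1 ≤ p)] (Γ : Type u) :
    ∃ (v : Γ → LP p Γ) (f : Γ → StrongDual ℝ (LP p Γ)), IsSystem p 1 v f := by
  classical
  have hp0 : (0 : ℝ≥0∞) < p := zero_lt_one.trans_le Fact.out
  refine ⟨fun γ => lp.single p γ (1 : ℝ), fun γ => lp.evalCLM ℝ (fun _ : Γ => ℝ) p γ,
    fun γ => ?_, fun γ => ?_, fun γ β h => ?_, fun x => lp.memℓp x⟩
  · rw [lp.norm_single hp0, norm_one]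
  · change (lp.single p γ (1 : ℝ) : LP p Γ) γ = 1
    rw [lp.single_apply_self]
  · change (lp.single p β (1 : ℝ) : LP p Γ) γ = 0
    rw [lp.single_apply_ne _ _ _ h]

theorem result :
    (∀ (p : ℝ≥0∞) [Fact (1 ≤ p)], p ≠ ⊤ → ∀ (Γ : Type u) [Uncountable Γ],
      Criterion.{v, u} (LP p Γ) ∧ StrongOntoAll.{u, v, u} Γ 1 (LP p Γ)) ∧
    (∀ (p : ℝ≥0∞) [Fact (1 ≤ p)], p ≠ ⊤ → ∀ (Γ : Type u) [Uncountable Γ]
      (E : Type w) [NormedAddCommGroup E] [NormedSpace ℝ E] [CompleteSpace E]
      (C : ℝ) (v : Γ → E) (f : Γ → StrongDual ℝ E), IsSystem p C v f →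
      StrongOntoAll.{u, v, w} Γ C E) ∧
    (∀ (E : Type w) [NormedAddCommGroup E] [NormedSpace ℝ E], LowDimensional.{v, w} E) := by
  have hlow : ∀ (E : Type w) [NormedAddCommGroup E] [NormedSpace ℝ E],
      LowDimensional.{v, w} E := fun E _ _ F _ _ hF g hg hs =>
    Pool.Agent.Y276.SS.low hF g hg hs
  have hstrong : ∀ (p : ℝ≥0∞) [Fact (1 ≤ p)], p ≠ ⊤ → ∀ (Γ : Type u) [Uncountable Γ],
      StrongOntoAll.{u, v, u} Γ 1 (LP p Γ) := by
    intro p _ hp Γ _
    obtain ⟨v, f, h⟩ := lp_system p Γ
    exact general_case p hp Γ (LP p Γ) 1 v f h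
  refine ⟨fun p _ hp Γ _ => ⟨fun F _ _ _ _ => ⟨?_, ?_⟩, hstrong p hp Γ⟩, ?_, hlow⟩
  · rintro ⟨g, h1, h2, h3⟩
    by_contra hF
    obtain ⟨Y, hY1, hY2⟩ := Pool.Agent.Y276.SS.low (not_lt.1 hF) g h1.continuous h2
    exact h3 Y hY1 hY2
  · intro hF
    obtain ⟨g, h1, _, h3, h4, _⟩ := hstrong p hp Γ F hF
    refine ⟨g, h1, fun y => ?_, fun Y hY hs => ?_⟩
    · have hy : y ∈ g '' Metric.closedBall 0 1 := h3 ▸ mem_univ y
      obtain ⟨x, _, hx⟩ := hy
      exact ⟨x, hx⟩
    · have h5 : g '' Y = univ := by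
        rw [eq_univ_iff_forall]
        intro y
        obtain ⟨x, hx⟩ := hs y
        exact ⟨x, x.2, hx⟩
      have h6 := h4 Y hY
      rw [h5, interior_univ] at h6
      exact absurd h6 (univ_nonempty (α := F)).ne_empty
  · intro p _ hp Γ _ E _ _ _ C v f h
    exact general_case p hp Γ E C v f h

end Pool.Agent.Results.MP_9a6711_an.DimensionCriterion
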